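import Mathlib

namespace Pool.Agent.Results.MP_8fbeef_co.DomPath

variable {V : Type}

/-- every vertex outside `D` has a neighbour in `D` -/
def Dom (G : SimpleGraph V) (D : Set V) : Prop := ∀ v, v ∉ D → ∃ u ∈ D, G.Adj v u

/-- the domination number -/
noncomputable def gam (G : SimpleGraph V) : ℕ := sInf {k | ∃ D : Finset V, D.card = k ∧ Dom G D}

/-- `k`-`(γ,r)`-critical graphs -/
def Crit (G : SimpleGraph V) (k r : ℕ) : Prop :=
  gam G = k ∧ ∀ u v, u ≠ v → ¬ G.Adj u v → G.dist u v ≤ r → gam (G ⊔ SimpleGraph.edge u v) < k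

lemma ex [Fintype V] (G : SimpleGraph V) : ∃ D : Finset V, D.card = gam G ∧ Dom G D :=
  Nat.sInf_mem (s := {k | ∃ D : Finset V, D.card = k ∧ Dom G D})
    ⟨_, Finset.univ, rfl, fun v hv => absurd (by simp) hv⟩

lemma two (G : SimpleGraph V) (hc : G.Connected) (a b : V) (hab : a ≠ b) (h : ¬ G.Adj a b) :
    ∃ u x v, u ≠ v ∧ ¬ G.Adj u v ∧ G.Adj u x ∧ G.Adj x v := by
  by_contra hn
  push Not at hn
  have key : ∀ (s t : V) (p : G.Walk s t), s = t ∨ G.Adj s t := by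
    intro s t p
    induction p with
    | nil => exact Or.inl rfl
    | @cons s x t h1 p ih =>
      rcases ih with rfl | h2
      · exact Or.inr h1
      · by_contra h3
        push Not at h3
        exact hn s x t h3.1 h3.2 h1 h2
  obtain ⟨p⟩ := hc a b
  rcases key a b p with h' | h'
  · exact hab h'
  · exact h h'

lemma path (G : SimpleGraph V) (hc : G.Connected) (u x v : V) (h1 : G.Adj u x) (h2 : G.Adj x v)
    (D : Finset V) (hD : D.card < 3) (hu : u ∈ D) (hd : ∀ y, y ∉ D → y ≠ v → ∃ z ∈ D, G.Adj y z) :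
    ∃ (a b : V) (p : G.Walk a b), p.IsPath ∧ Dom G {y | y ∈ p.support} := by
  classical
  obtain ⟨w, hw⟩ : ∃ w, ∀ z ∈ D, z = u ∨ z = w := by
    by_cases h : ∃ w ∈ D, w ≠ u
    · obtain ⟨w, w1, w2⟩ := h
      refine ⟨w, fun z hz => ?_⟩
      by_contra h3
      push Not at h3
      exact absurd (Finset.two_lt_card_iff.2 ⟨z, u, w, hz, hu, w1, h3.1, h3.2, w2.symm⟩) (by omega)
    · push Not at h
      exact ⟨u, fun z hz => Or.inl (h z hz)⟩
  obtain ⟨p, hp⟩ := (hc u w).exists_isPath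
  have fin : ∀ S : Set V, u ∈ S → w ∈ S → x ∈ S → Dom G S := by
    intro S s1 s2 s3 y hy
    have hS : ∀ z ∈ D, z ∈ S := fun z hz => by rcases hw z hz with rfl | rfl <;> assumption
    by_cases hv : y = v
    · exact ⟨x, s3, hv ▸ h2.symm⟩
    · obtain ⟨z, z1, z2⟩ := hd y (fun h => hy (hS y h)) hv
      exact ⟨z, hS z z1, z2⟩
  by_cases hx : x ∈ p.support
  · exact ⟨u, w, p, hp, fin _ p.start_mem_support p.end_mem_support hx⟩
  · refine ⟨x, w, SimpleGraph.Walk.cons h1.symm p, hp.cons hx, fin _ ?_ ?_ ?_⟩ <;> simp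

theorem result {V : Type} [Fintype V] (G : SimpleGraph V) (hc : G.Connected) (h : Crit G 3 2) :
    ∃ (a b : V) (p : G.Walk a b), p.IsPath ∧ Dom G {y | y ∈ p.support} := by
  classical
  have low : ∀ D : Finset V, Dom G D → 3 ≤ D.card := fun D hD =>
    h.1 ▸ Nat.sInf_le ⟨D, rfl, hD⟩
  obtain ⟨a⟩ := hc.nonempty
  obtain ⟨b, hb1, hb2⟩ : ∃ b, b ≠ a ∧ ¬ G.Adj b a := by
    by_contra hn
    push Not at hn
    have := low {a} (fun v hv => ⟨a, by simp, hn v (by simpa using hv)⟩)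
    simp at this
  obtain ⟨u, x, v, huv, hn, h1, h2⟩ := two G hc b a hb1 hb2
  have hd : G.dist u v ≤ 2 :=
    G.dist_le (SimpleGraph.Walk.cons h1 (SimpleGraph.Walk.cons h2 SimpleGraph.Walk.nil))
  obtain ⟨D, d1, d2⟩ := ex (G ⊔ SimpleGraph.edge u v)
  have d3 : D.card < 3 := d1 ▸ h.2 u v huv hn hd
  obtain ⟨y, y1, y2⟩ : ∃ y, y ∉ D ∧ ∀ z ∈ D, ¬ G.Adj y z := by
    by_contra hn
    push Not at hn
    exact absurd (low D fun y hy => hn y hy) (by omega)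
  obtain ⟨z, z1, z2⟩ := d2 y y1
  rw [SimpleGraph.sup_adj, SimpleGraph.edge_adj] at z2
  have gen : ∀ y', y' ∉ D → ∃ z ∈ D, G.Adj y' z ∨ (y' = u ∧ z = v ∨ y' = v ∧ z = u) := by
    intro y' hy'
    obtain ⟨z, z1, z2⟩ := d2 y' hy'
    rw [SimpleGraph.sup_adj, SimpleGraph.edge_adj] at z2
    exact ⟨z, z1, z2.imp id And.left⟩
  rcases z2 with z2 | ⟨⟨rfl, rfl⟩ | ⟨rfl, rfl⟩, -⟩
  · exact absurd z2 (y2 z z1)
  · refine path G hc z x y h2.symm h1.symm D d3 z1 fun t t1 t2 => ?_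
    obtain ⟨s, s1, s2 | ⟨s2, -⟩ | ⟨s2, -⟩⟩ := gen t t1
    · exact ⟨s, s1, s2⟩
    · exact absurd s2 t2
    · exact absurd (s2 ▸ z1) t1
  · refine path G hc z x y h1 h2 D d3 z1 fun t t1 t2 => ?_
    obtain ⟨s, s1, s2 | ⟨s2, -⟩ | ⟨s2, -⟩⟩ := gen t t1
    · exact ⟨s, s1, s2⟩
    · exact absurd (s2 ▸ z1) t1
    · exact absurd s2 t2

end Pool.Agent.Results.MP_8fbeef_co.DomPath
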